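import Pool.Agent.Helper46.UC.Defs

/-!
# MP_57a173_lc, packet NEW: a new real is made different from countably many old ones
-/

noncomputable section

namespace UL.UC.PkNEW

open UL UL.UC

theorem new_ : P_NEW := by
  intro I _ D y r hD hF hy hN hr
  have hdns : ∀ k : ℕ, Dns (Set.univ : Set I)
      (fun h => ∃ n, ∀ z, y (h z) n ≠ r k (h z) n) := by
    intro k f hf
    by_cases h : ∀ n z, y (f z) n = r k (f z) n
    · exfalso
      refine hN f hf.1 fun i => ?_
      have h1 : LC D (fun z => r k (f z) i) := LC.comp hD (hr k i) hf.1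
      have h2 : (fun z => y (f z) i) = fun z => r k (f z) i := funext (h i)
      rw [h2]
      exact h1
    · push Not at h
      obtain ⟨n, z, hz⟩ := h
      have h1 : LC Set.univ (fun z => y (f z) n) := LC.comp isLowerSet_univ (hy n) hf.1
      have h2 : LC Set.univ (fun z => r k (f z) n) :=
        LC.comp isLowerSet_univ ((hr k n).mono (Set.subset_univ D)) hf.1
      obtain ⟨A, -, -, hA⟩ := LC_iff.1 (h1.prod h2)
      obtain ⟨τ, hτ, -, -, hc⟩ := hA z
      refine ⟨J τ, J_MD hτ (Set.subset_univ _), n, fun z' => ?_⟩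
      have h3 := hc (J τ z') (J_mem_B τ z')
      have h4 : y (f (J τ z')) n = y (f z) n := congrArg Prod.fst h3
      have h5 : r k (f (J τ z')) n = r k (f z) n := congrArg Prod.snd h3
      show y (f (J τ z')) n ≠ r k (f (J τ z')) n
      rw [h4, h5]
      exact hz
  have hopn : ∀ k : ℕ, Opn (Set.univ : Set I)
      (fun h => ∃ n, ∀ z, y (h z) n ≠ r k (h z) n) := by
    rintro k f g - ⟨n, hn⟩ -
    exact ⟨n, fun z => hn (g z)⟩
  obtain ⟨g, hg, -, hc⟩ := hF _ hdns hopn
  refine ⟨g, hg.1, fun z k => ?_⟩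
  obtain ⟨A, -, -, hA⟩ := hc k
  obtain ⟨τ, -, -, hz, n, hn⟩ := hA z
  obtain ⟨w, rfl⟩ := mem_B_iff.1 hz
  exact ⟨n, hn w⟩

end UL.UC.PkNEW
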